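import Mathlib

/-!
# The Polish group of the homeomorphisms of a compact metrizable space
-/

set_option autoImplicit false

open Topology Set

namespace Pool.Agent.H149.HQ

variable {X : Type} [TopologicalSpace X]

/-- A homeomorphism as a continuous map. -/
def toC (f : X ≃ₜ X) : C(X, X) := ⟨f, f.continuous⟩

/-- The topology of the homeomorphism group induced by the compact-open topology. -/
@[reducible] def homeoTop : TopologicalSpace (X ≃ₜ X) := TopologicalSpace.induced toC inferInstance

section

attribute [local instance] homeoTop

theorem continuous_toC : Continuous (toC : (X ≃ₜ X) → C(X, X)) := continuous_induced_dom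

variable [CompactSpace X] [T2Space X]

theorem continuous_toC_symm : Continuous fun f : X ≃ₜ X => toC f.symm := by
  rw [ContinuousMap.continuous_compactOpen]
  intro K hK U hU
  have : {x : X ≃ₜ X | MapsTo (toC x.symm) K U} = toC ⁻¹' {f : C(X, X) | MapsTo f Uᶜ Kᶜ} := by
    ext f
    simp only [mem_ofPred_eq, mem_preimage]
    constructor
    · intro h x hx hxK
      apply hx
      have h1 := h hxK
      change f.symm (f x) ∈ U at h1
      rwa [f.symm_apply_apply] at h1
    · intro h x hx
      by_contra hxU
      have h1 := h hxU
      apply h1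
      change f (f.symm x) ∈ K
      rwa [f.apply_symm_apply]
  rw [this]
  exact (ContinuousMap.isOpen_setOfPred_mapsTo hU.isClosed_compl.isCompact
    hK.isClosed.isOpen_compl).preimage continuous_toC

theorem homeo_isTopologicalGroup : IsTopologicalGroup (X ≃ₜ X) where
  continuous_mul := by
    refine continuous_induced_rng.2 ?_
    have h : (toC ∘ fun p : (X ≃ₜ X) × (X ≃ₜ X) => p.1 * p.2) =
        fun p => (toC p.1).comp (toC p.2) := by
      funext p
      rfl
    rw [h]
    exact ContinuousMap.continuous_comp'.comp
      ((continuous_toC.comp continuous_snd).prodMk (continuous_toC.comp continuous_fst))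
  continuous_inv := by
    refine continuous_induced_rng.2 ?_
    exact continuous_toC_symm

theorem homeo_polish [SecondCountableTopology X] : PolishSpace (X ≃ₜ X) := by
  let _ := TopologicalSpace.metrizableSpaceMetric X
  have hP : PolishSpace C(X, X) := inferInstance
  have hcl : Topology.IsClosedEmbedding fun f : X ≃ₜ X => (toC f, toC f.symm) := by
    have hind : Topology.IsInducing (toC : (X ≃ₜ X) → C(X, X)) := ⟨rfl⟩
    refine ⟨⟨Topology.IsInducing.of_comp (continuous_toC.prodMk continuous_toC_symm)
      continuous_fst hind, ?_⟩, ?_⟩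
    · intro f g hfg
      have h1 : toC f = toC g := congrArg Prod.fst hfg
      ext x
      exact DFunLike.congr_fun h1 x
    · have h : (Set.range fun f : X ≃ₜ X => (toC f, toC f.symm)) =
          {p : C(X, X) × C(X, X) | p.1.comp p.2 = ContinuousMap.id X ∧
            p.2.comp p.1 = ContinuousMap.id X} := by
        ext p
        constructor
        · rintro ⟨f, rfl⟩
          exact ⟨ContinuousMap.ext f.apply_symm_apply, ContinuousMap.ext f.symm_apply_apply⟩
        · rintro ⟨h1, h2⟩
          refine ⟨⟨⟨p.1, p.2, fun x => DFunLike.congr_fun h2 x, fun x => DFunLike.congr_fun h1 x⟩,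
            p.1.continuous, p.2.continuous⟩, ?_⟩
          rfl
      rw [h]
      have h1 : Continuous (fun p : C(X, X) × C(X, X) => p.1.comp p.2) :=
        ContinuousMap.continuous_comp' |>.comp (continuous_snd.prodMk continuous_fst)
      have h2 : Continuous (fun p : C(X, X) × C(X, X) => p.2.comp p.1) :=
        ContinuousMap.continuous_comp' |>.comp (continuous_fst.prodMk continuous_snd)
      exact (isClosed_eq h1 continuous_const).inter (isClosed_eq h2 continuous_const)
  exact hcl.polishSpace

end

/-- A continuous one-parameter group which leaves a neighbourhood of the identity shows that the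
group is not non-archimedean. -/
theorem not_nonarch {G : Type} [Group G] [TopologicalSpace G] [IsTopologicalGroup G] (P : ℝ → G)
    (hP : Continuous P) (hP0 : P 0 = 1) (U : Set G) (hU : U ∈ 𝓝 (1 : G)) (t : ℝ) (ht : P t ∉ U) :
    ∃ U ∈ 𝓝 (1 : G), ∀ H : Subgroup G, IsOpen (H : Set G) → ¬ (H : Set G) ⊆ U := by
  refine ⟨U, hU, fun H hH hHU => ht (hHU ?_)⟩
  have hcl : IsClopen (P ⁻¹' (H : Set G)) :=
    ⟨(H.isClosed_of_isOpen hH).preimage hP, hH.preimage hP⟩
  have h := hcl.eq_univ ⟨0, by
    change P 0 ∈ H
    rw [hP0]
    exact H.one_mem⟩
  have : t ∈ P ⁻¹' (H : Set G) := by rw [h]; trivial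
  exact this

end Pool.Agent.H149.HQ
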